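import Mathlib

/-!
# The two-generator Lie-nil associative algebra of index `n` has `A^(2n-2) ≠ 0`

The algebra `A` is the free associative algebra without unit on `X, Y` modulo the ideal generated
by the `n`-th powers of the elements of the Lie algebra generated by `X` and `Y`.

Let `E` be the exterior algebra on two generators and consider, in the tensor product of `n - 1`
copies of `E` (factors commute), the elements `x = x₁ + ... + x_{n-1}`, `y = y₁ + ... + y_{n-1}`.
The Lie algebra generated by `x` and `y` is spanned by `x`, `y` and the central element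
`z = [x, y] = 2 (x₁ y₁ + ... + x_{n-1} y_{n-1})`.  Each of its elements is a sum of `n - 1`
commuting elements with square zero, so its `n`-th power vanishes, but
`x ^ (n-1) * y ^ (n-1) = (n-1)! ^ 2 x₁ y₁ ... x_{n-1} y_{n-1}` is not zero if `(n-1)!` is
invertible.  Below the tensor product is built one factor at a time, as an algebra of
`4 × 4` matrices over the previous algebra.
-/

set_option autoImplicit false

namespace Pool.Agent.Results.MP_776ebc_al.LieNilDegree

universe u

attribute [local instance] LieRing.ofAssociativeRing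

/-- The free associative algebra with unit on two variables. -/
abbrev F (K : Type u) [Field K] : Type u := FreeAlgebra K (Fin 2)

/-- The first variable. -/
def X (K : Type u) [Field K] : F K := FreeAlgebra.ι K 0

/-- The second variable. -/
def Y (K : Type u) [Field K] : F K := FreeAlgebra.ι K 1

/-- `K⟨X,Y⟩⁺`: the non-commutative polynomials with zero constant term (`algebraMapInv` is the
algebra homomorphism to `K` which sends both variables to `0`). -/
def plus (K : Type u) [Field K] : Set (F K) :=
  {f | FreeAlgebra.algebraMapInv (R := K) (X := Fin 2) f = 0}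

/-- The Lie subalgebra `L₀` generated by the two variables, for the bracket `ST - TS`. -/
def L0 (K : Type u) [Field K] : LieSubalgebra K (F K) := LieSubalgebra.lieSpan K (F K) {X K, Y K}

/-- The two-sided ideal generated by all `U ^ n`, `U ∈ L₀`. -/
def I (K : Type u) [Field K] (n : ℕ) : TwoSidedIdeal (F K) :=
  TwoSidedIdeal.span {w | ∃ U ∈ L0 K, w = U ^ n}

/-- `A ^ k = 0` for `A = K⟨X,Y⟩⁺ / I`: every product of `k` polynomials with zero constant term
lies in the ideal. -/
def PowVanishes (K : Type u) [Field K] (n k : ℕ) : Prop :=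
  ∀ l : List (F K), l.length = k → (∀ a ∈ l, a ∈ plus K) → l.prod ∈ I K n

section aux

variable {B : Type u} [Ring B]

/-- first generator of the exterior algebra, acting by left multiplication -/
def C1 : Matrix (Fin 4) (Fin 4) ℤ := !![0,0,0,0; 1,0,0,0; 0,0,0,0; 0,0,1,0]

/-- second generator of the exterior algebra, acting by left multiplication -/
def C2 : Matrix (Fin 4) (Fin 4) ℤ := !![0,0,0,0; 0,0,0,0; 1,0,0,0; 0,-1,0,0]

/-- integer matrices as matrices over `B` -/
def iot (B : Type u) [Ring B] : Matrix (Fin 4) (Fin 4) ℤ →+* Matrix (Fin 4) (Fin 4) B :=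
  (Int.castRingHom B).mapMatrix

lemma comm_scalar (b : B) (C : Matrix (Fin 4) (Fin 4) ℤ) :
    Matrix.scalar (Fin 4) b * iot B C = iot B C * Matrix.scalar (Fin 4) b := by
  ext i j
  simp only [Matrix.scalar_apply, Matrix.diagonal_mul, Matrix.mul_diagonal, iot,
    RingHom.mapMatrix_apply, Matrix.map_apply, Int.coe_castRingHom]
  exact (Int.cast_commute (C i j) b).symm

lemma add_pow_sq_zero {a e : B} (hae : a * e = e * a) (he : e * e = 0) (m : ℕ) :
    (a + e) ^ (m + 1) = a ^ (m + 1) + ((m + 1 : ℕ) : B) * (a ^ m * e) := by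
  induction m with
  | zero => simp
  | succ m ih =>
    rw [pow_succ, ih]
    have h1 : a ^ m * e * a = a ^ (m + 1) * e := by rw [mul_assoc, ← hae, ← mul_assoc, ← pow_succ]
    have h2 : a ^ m * e * e = 0 := by rw [mul_assoc, he, mul_zero]
    rw [add_mul, mul_add, mul_add, mul_assoc ((m + 1 : ℕ) : B) _ a, h1,
      mul_assoc ((m + 1 : ℕ) : B) _ e, h2, mul_zero, add_zero, ← pow_succ]
    push_cast
    noncomm_ring

end aux

/-- The model. -/
lemma exists_model (K : Type u) [Field K] (n : ℕ) (hn : ((n.factorial : ℕ) : K) ≠ 0) :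
    ∃ (B : Type u) (_ : Ring B) (_ : Algebra K B) (x y z : B),
      x * y = z + y * x ∧ z * x = x * z ∧ z * y = y * z ∧
      (∀ a b c : K, (a • x + b • y + c • z) ^ (n + 1) = 0) ∧ x ^ n * y ^ n ≠ 0 := by
  induction n with
  | zero => exact ⟨K, inferInstance, inferInstance, 0, 0, 0, by simp, by simp, by simp, by simp,
      by simp⟩
  | succ n ih =>
    rw [Nat.factorial_succ, Nat.cast_mul] at hn
    obtain ⟨B, _, _, x, y, z, hxy, hzx, hzy, hpow, hne⟩ := ih (right_ne_zero_of_mul hn)
    have hn1 : ((n + 1 : ℕ) : K) ≠ 0 := left_ne_zero_of_mul hn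
    let D := Matrix.scalar (α := B) (Fin 4)
    have hD : ∀ (b : B) (C : Matrix (Fin 4) (Fin 4) ℤ), D b * iot B C = iot B C * D b :=
      comm_scalar
    have hDs : ∀ (k : K) (b : B), D (k • b) = k • D b := by
      intro k b
      ext i j
      simp only [D, Matrix.scalar_apply, Matrix.smul_apply, Matrix.diagonal_apply]
      split_ifs <;> simp
    have hiz : ∀ (M : Matrix (Fin 4) (Fin 4) ℤ), M = 0 → iot B M = 0 := by
      rintro M rfl; exact map_zero _
    have h11 : iot B C1 * iot B C1 = 0 := by rw [← map_mul]; exact hiz _ (by decide)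
    have h22 : iot B C2 * iot B C2 = 0 := by rw [← map_mul]; exact hiz _ (by decide)
    have h12 : iot B C2 * iot B C1 = - (iot B C1 * iot B C2) := by
      rw [← map_mul, ← map_mul, ← map_neg]; exact congrArg _ (by decide)
    set e1 := iot B C1 with he1
    set e2 := iot B C2 with he2
    set e3 := iot B (C1 * C2 - C2 * C1) with he3
    have h3 : e3 = e1 * e2 - e2 * e1 := by rw [he3, map_sub, map_mul, map_mul]
    have h31 : e3 * e1 = 0 := by rw [he3, he1, ← map_mul]; exact hiz _ (by decide)
    have h13 : e1 * e3 = 0 := by rw [he3, he1, ← map_mul]; exact hiz _ (by decide)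
    have h32 : e3 * e2 = 0 := by rw [he3, he2, ← map_mul]; exact hiz _ (by decide)
    have h23 : e2 * e3 = 0 := by rw [he3, he2, ← map_mul]; exact hiz _ (by decide)
    have h33 : e3 * e3 = 0 := by rw [he3, ← map_mul]; exact hiz _ (by decide)
    refine ⟨Matrix (Fin 4) (Fin 4) B, inferInstance, inferInstance, D x + e1, D y + e2, D z + e3,
      ?_, ?_, ?_, ?_, ?_⟩
    · have hxy' : D x * D y = D z + D y * D x := by
        rw [← map_mul, hxy, map_add, map_mul]
      rw [add_mul, mul_add, mul_add, add_mul, mul_add, mul_add, hxy', hD x C2, ← hD y C1, h3]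
      abel
    · have : D z * D x = D x * D z := by rw [← map_mul, hzx, map_mul]
      rw [add_mul, mul_add, mul_add, add_mul, mul_add, mul_add, this, hD z C1, ← hD x _, h31, h13]
      abel
    · have : D z * D y = D y * D z := by rw [← map_mul, hzy, map_mul]
      rw [add_mul, mul_add, mul_add, add_mul, mul_add, mul_add, this, hD z C2, ← hD y _, h32, h23]
      abel
    · intro a b c
      have hsplit : a • (D x + e1) + b • (D y + e2) + c • (D z + e3) =
          D (a • x + b • y + c • z) + (a • e1 + b • e2 + c • e3) := by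
        rw [map_add, map_add, hDs, hDs, hDs]
        module
      have hcomm : D (a • x + b • y + c • z) * (a • e1 + b • e2 + c • e3) =
          (a • e1 + b • e2 + c • e3) * D (a • x + b • y + c • z) := by
        simp only [mul_add, add_mul, mul_smul_comm, smul_mul_assoc]
        rw [hD _ C1, hD _ C2, hD _ _]
      have hsq : (a • e1 + b • e2 + c • e3) * (a • e1 + b • e2 + c • e3) = 0 := by
        simp only [mul_add, add_mul, mul_smul_comm, smul_mul_assoc, h11, h22, h33, h31, h13, h32,
          h23, h12, smul_zero, add_zero, zero_add]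
        module
      rw [hsplit, add_pow_sq_zero hcomm hsq, ← map_pow, ← map_pow, pow_succ, hpow]
      simp
    · have hx : x ^ (n + 1) = 0 := by simpa using hpow 1 0 0
      have hy : y ^ (n + 1) = 0 := by simpa using hpow 0 1 0
      rw [add_pow_sq_zero (hD x C1) h11, add_pow_sq_zero (hD y C2) h22, ← map_pow, ← map_pow,
        ← map_pow, ← map_pow, hx, hy, map_zero, zero_add, zero_add]
      intro h0
      have h1 : D (x ^ n) * e1 * (D (y ^ n) * e2) = D (x ^ n * y ^ n) * (e1 * e2) := by
        rw [map_mul, mul_assoc, ← mul_assoc e1, ← hD (y ^ n) C1]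
        noncomm_ring
      have h2 : ((n + 1 : ℕ) : Matrix (Fin 4) (Fin 4) B) * (D (x ^ n) * e1) *
          (((n + 1 : ℕ) : Matrix (Fin 4) (Fin 4) B) * (D (y ^ n) * e2)) =
          (((n + 1 : ℕ) : K) * ((n + 1 : ℕ) : K)) • (D (x ^ n * y ^ n) * (e1 * e2)) := by
        rw [← h1, mul_smul, Nat.cast_smul_eq_nsmul, Nat.cast_smul_eq_nsmul, nsmul_eq_mul,
          nsmul_eq_mul, mul_assoc, mul_assoc]
        congr 1
        rw [← mul_assoc (D (x ^ n)), ← mul_assoc (D (x ^ n) * e1),
          ← (Nat.cast_commute (n + 1) (D (x ^ n) * e1)).eq]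
        simp only [mul_assoc]
      rw [h2] at h0
      have h3 := (smul_eq_zero_iff_right (mul_ne_zero hn1 hn1)).1 h0
      have h4 := congrFun (congrFun h3 3) 0
      rw [he1, he2, ← map_mul] at h4
      simp only [D, Matrix.scalar_apply, Matrix.diagonal_mul, Matrix.zero_apply, iot,
        RingHom.mapMatrix_apply, Matrix.map_apply, Int.coe_castRingHom] at h4
      have h5 : (C1 * C2) 3 0 = 1 := by decide
      rw [h5, Int.cast_one, mul_one] at h4
      exact hne h4

/-- The monomial `X ^ (n-1) * Y ^ (n-1)` does not lie in the ideal. -/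
lemma notMem (K : Type u) [Field K] (n : ℕ) (hn1 : 1 ≤ n)
    (hn : (((n - 1).factorial : ℕ) : K) ≠ 0) : X K ^ (n - 1) * Y K ^ (n - 1) ∉ I K n := by
  obtain ⟨B, _, _, x, y, z, hxy, hzx, hzy, hpow, hne⟩ := exists_model K (n - 1) hn
  rw [Nat.sub_add_cancel hn1] at hpow
  let φ : F K →ₐ[K] B := FreeAlgebra.lift K ![x, y]
  have hX : φ (X K) = x := by simp [φ, X]
  have hY : φ (Y K) = y := by simp [φ, Y]
  let S : LieSubalgebra K (F K) :=
    { carrier := {U | ∃ a b c : K, φ U = a • x + b • y + c • z}
      zero_mem' := ⟨0, 0, 0, by simp⟩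
      add_mem' := by
        rintro U V ⟨a, b, c, hU⟩ ⟨a', b', c', hV⟩
        refine ⟨a + a', b + b', c + c', ?_⟩
        rw [map_add, hU, hV]
        module
      smul_mem' := by
        rintro k U ⟨a, b, c, hU⟩
        refine ⟨k * a, k * b, k * c, ?_⟩
        rw [map_smul, hU]
        module
      lie_mem' := by
        rintro U V ⟨a, b, c, hU⟩ ⟨a', b', c', hV⟩
        refine ⟨0, 0, a * b' - b * a', ?_⟩
        rw [LieRing.of_associative_ring_bracket, map_sub, map_mul, map_mul, hU, hV]
        simp only [add_mul, mul_add, smul_mul_assoc, mul_smul_comm, smul_smul, hxy, hzx, hzy,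
          smul_add]
        module }
  have hL : L0 K ≤ S := by
    rw [L0, LieSubalgebra.lieSpan_le]
    rintro w (rfl | rfl)
    · exact ⟨1, 0, 0, by simp [hX]⟩
    · exact ⟨0, 1, 0, by simp [hY]⟩
  have hI : I K n ≤ TwoSidedIdeal.ker φ := by
    rw [I, TwoSidedIdeal.span_le]
    rintro w ⟨U, hU, rfl⟩
    obtain ⟨a, b, c, habc⟩ := hL hU
    rw [SetLike.mem_coe, TwoSidedIdeal.mem_ker, map_pow, habc, hpow]
  intro hmem
  have := hI hmem
  rw [TwoSidedIdeal.mem_ker, map_mul, map_pow, map_pow, hX, hY] at this
  exact hne this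

/-- **Main result.**  For every `n ≥ 2` and every field `K` of characteristic `0` or of
characteristic `p ≥ n` the two-generator Lie-nil algebra `A` of index `n` has
`A ^ (2 n - 2) ≠ 0`; precisely, the monomial `X ^ (n-1) * Y ^ (n-1)` is not zero in `A`. -/
theorem result (n : ℕ) (hn : 2 ≤ n) (K : Type u) [Field K] (p : ℕ) [CharP K p]
    (hp : p = 0 ∨ n ≤ p) :
    X K ^ (n - 1) * Y K ^ (n - 1) ∉ I K n ∧ ¬ PowVanishes K n (2 * n - 2) := by
  have hfac : (((n - 1).factorial : ℕ) : K) ≠ 0 := by
    rw [Ne, CharP.cast_eq_zero_iff K p]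
    rcases hp with rfl | hp
    · rw [zero_dvd_iff]; exact Nat.factorial_ne_zero _
    · have hp0 : p ≠ 0 := by omega
      have hprime : p.Prime := (CharP.char_is_prime_or_zero K p).resolve_right hp0
      rw [hprime.dvd_factorial]
      omega
  have h := notMem K n (by omega) hfac
  refine ⟨h, fun hv => h ?_⟩
  have hXp : X K ∈ plus K := by simp [plus, X, FreeAlgebra.algebraMapInv]
  have hYp : Y K ∈ plus K := by simp [plus, Y, FreeAlgebra.algebraMapInv]
  have := hv (List.replicate (n - 1) (X K) ++ List.replicate (n - 1) (Y K))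
    (by simp; omega) (by
      intro a ha
      rcases List.mem_append.1 ha with h | h
      · rw [List.eq_of_mem_replicate h]; exact hXp
      · rw [List.eq_of_mem_replicate h]; exact hYp)
  simpa using this

end Pool.Agent.Results.MP_776ebc_al.LieNilDegree
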